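import Pool.Agent.H37.CNK.Stmts

/-!
# Row DVA of the board `cnk`: the derivation at an element of order `|M|`
-/

set_option autoImplicit false

namespace Pool.CND

namespace DVA

open Finset Polynomial

section

variable {k L : Type} [Field k] [Field L] [Algebra k L] (P : Place k L)

/-- the order of `α - g α` for `α` of order `1` -/
theorem ord_sub (h5 : S_LON) (g : L ≃ₐ[k] L) (hf : Fixes P g) (hg : g ≠ 1) (hb : 1 ≤ P.b g)
    (α : L) (h0 : α ≠ 0) (hα : P.ord α = 1) :
    α - g α ≠ 0 ∧ P.ord (α - g α) = 1 + P.b g := by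
  have hpi : g P.pi ≠ P.pi := by
    intro h
    apply hg
    ext x
    by_contra hx
    rw [AlgEquiv.one_apply] at hx
    have hne : g x - x ≠ 0 := sub_ne_zero.2 hx
    have hx0 : x ≠ 0 := by
      rintro rfl
      exact hx (by simp)
    have h1 := (h5 k L P g P.pi (max 0 (P.ord (g x - x) - P.ord x + 1)) hf P.pi_ne P.ord_pi
      (le_max_left _ _) (Or.inl (sub_eq_zero.2 h)) x).resolve_right hx0
    have h2 := h1.resolve_left hne
    have h3 := le_max_right 0 (P.ord (g x - x) - P.ord x + 1)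
    omega
  have hb' : P.ord (g P.pi - P.pi) = P.b g + 1 := by
    unfold Place.b
    ring
  have h1 := (h5 k L P g P.pi (P.b g) hf P.pi_ne P.ord_pi (by omega)
    (Or.inr hb'.ge) α).resolve_right h0
  have h2 : ¬ P.Ge (g α - α) (P.b g + 2) := by
    intro h
    have h3 := (h5 k L P g α (P.b g + 1) hf h0 hα (by omega)
      (P.ge_mono h (by omega)) P.pi).resolve_right P.pi_ne
    have h4 := h3.resolve_left (sub_ne_zero.2 hpi)
    rw [P.ord_pi] at h4
    omega
  rw [Place.not_ge] at h2
  have h3 := h1.resolve_left h2.1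
  have e : α - g α = -(g α - α) := by ring
  rw [e]
  refine ⟨neg_ne_zero.2 h2.1, ?_⟩
  rw [P.ord_neg]
  omega

theorem ord_prod {ι : Type} (s : Finset ι) (f : ι → L) (h : ∀ i ∈ s, f i ≠ 0) :
    P.ord (∏ i ∈ s, f i) = ∑ i ∈ s, P.ord (f i) := by
  classical
  induction s using Finset.induction_on with
  | empty => simp [P.ord_one]
  | insert i s hi ih =>
    rw [prod_insert hi, sum_insert hi, P.ord_mul _ _ (h i (mem_insert_self i s))
      (prod_ne_zero_iff.2 fun j hj => h j (mem_insert_of_mem hj)),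
      ih fun j hj => h j (mem_insert_of_mem hj)]

theorem monic_pr {ι : Type} (s : Finset ι) (a : ι → L) : (∏ i ∈ s, (X - C (a i))).Monic :=
  monic_prod_of_monic _ _ fun _ _ => monic_X_sub_C _

theorem deg_pr {ι : Type} (s : Finset ι) (a : ι → L) :
    (∏ i ∈ s, (X - C (a i))).natDegree = s.card := by
  rw [natDegree_prod_of_monic _ _ (fun _ _ => monic_X_sub_C _)]
  simp

theorem coeff_ge {ι : Type} (s : Finset ι) (a : ι → L) (ha : ∀ i ∈ s, P.Ge (a i) 1) :
    ∀ j < s.card, P.Ge ((∏ i ∈ s, (X - C (a i))).coeff j) 1 := by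
  classical
  induction s using Finset.induction_on with
  | empty => intro j hj; simp at hj
  | insert i s hi ih =>
    intro j hj
    rw [card_insert_of_notMem hi] at hj
    rw [prod_insert hi, sub_mul, coeff_sub, coeff_C_mul]
    have ih' := ih (fun i hi => ha i (mem_insert_of_mem hi))
    have hge0 : P.Ge ((∏ i ∈ s, (X - C (a i))).coeff j) 0 := by
      rcases lt_trichotomy j s.card with h | h | h
      · exact P.ge_mono (ih' j h) zero_le_one
      · have hm := (monic_pr s a).coeff_natDegree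
        rw [deg_pr] at hm
        rw [h, hm]
        exact Or.inr P.ord_one.ge
      · left
        exact coeff_eq_zero_of_natDegree_lt (by rw [deg_pr]; exact h)
    apply P.ge_sub
    · cases j with
      | zero =>
        left
        simp
      | succ j =>
        rw [coeff_X_mul]
        exact ih' j (by omega)
    · have := P.ge_mul (ha i (mem_insert_self i s)) hge0
      rwa [add_zero] at this

end

section

variable {k L : Type} [Field k] [Field L] [Algebra k L] {t : L} {Δ : L → L}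

theorem dd_zero (hD : DD k t Δ) : Δ 0 = 0 := by
  have := hD.con 0
  rwa [map_zero] at this

theorem dd_one (hD : DD k t Δ) : Δ 1 = 0 := by
  have := hD.con 1
  rwa [map_one] at this

theorem dd_neg (hD : DD k t Δ) (x : L) : Δ (-x) = -Δ x := by
  have h := hD.add x (-x)
  rw [add_neg_cancel, dd_zero hD] at h
  linear_combination -h

theorem dd_sum (hD : DD k t Δ) {ι : Type} (s : Finset ι) (f : ι → L) :
    Δ (∑ i ∈ s, f i) = ∑ i ∈ s, Δ (f i) := by
  classical
  induction s using Finset.induction_on with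
  | empty => simp [dd_zero hD]
  | insert i s hi ih => rw [sum_insert hi, sum_insert hi, hD.add, ih]

theorem dd_pow (hD : DD k t Δ) (x : L) (n : ℕ) : Δ (x ^ n) = n * x ^ (n - 1) * Δ x := by
  induction n with
  | zero => simp [dd_one hD]
  | succ n ih =>
    rw [pow_succ, hD.mul, ih]
    rcases n with _ | n
    · simp
    · rw [Nat.add_sub_cancel, Nat.add_sub_cancel]
      push_cast
      ring

/-- the derivative of `F(α)` -/
theorem dd_eval (hD : DD k t Δ) (F : Polynomial L) (α : L) :
    Δ (F.eval α) = F.derivative.eval α * Δ α +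
      ∑ i ∈ range (F.natDegree + 1), α ^ i * Δ (F.coeff i) := by
  rw [eval_eq_sum_range, dd_sum hD]
  have h1 : F.derivative.eval α =
      ∑ i ∈ range (F.natDegree + 1), F.coeff i * (i * α ^ (i - 1)) := by
    rw [derivative_eval, sum_over_range _ (by simp)]
    refine Finset.sum_congr rfl fun i _ => ?_
    ring
  rw [h1, Finset.sum_mul, ← Finset.sum_add_distrib]
  refine Finset.sum_congr rfl fun i _ => ?_
  rw [hD.mul, dd_pow hD]
  ring

end

/-- the case `M = ⊥` -/
theorem core (h1 : S_BAS) (h2 : S_DKK) (h5 : S_LON) {p : ℕ} {k L G : Type} [Field k]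
    [IsAlgClosed k] [Field L] [Algebra k L] [Group G] [Fintype G] [DecidableEq G]
    (ρ : G →* (L ≃ₐ[k] L)) (t : L) (P : Place k L) (Δ : L → L) (hP : PCv p ρ t P)
    (hD : DD k t Δ) (α : L) (h0 : α ≠ 0) (hα : P.ord α = 1) :
    Δ α ≠ 0 ∧ P.ord (Δ α) = 1 - ∑ g ∈ univ.erase (1 : G), P.b (ρ g) := by
  obtain ⟨-, hfix, hordt, hum, hinj⟩ := h1 p k L G ρ t P hP
  have hne1 : ∀ g : G, g ≠ 1 → ρ g ≠ 1 := fun g hg h => hg (hinj (by rw [h, map_one]))
  have hsub : ∀ g : G, g ≠ 1 → α - ρ g α ≠ 0 ∧ P.ord (α - ρ g α) = 1 + P.b (ρ g) := fun g hg =>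
    ord_sub P h5 (ρ g) (hfix g) (hne1 g hg) (hum.pos g (Subgroup.mem_top g) hg) α h0 hα
  set F : Polynomial L := ∏ g : G, (X - C (ρ g α)) with hF
  set n : ℕ := Nat.card G with hn
  have hn1 : 1 ≤ n := Nat.card_pos
  have hcard : (univ : Finset G).card = n := by rw [hn, Nat.card_eq_fintype_card, card_univ]
  have hdeg : F.natDegree = n := by rw [hF, deg_pr, hcard]
  have hmon : F.Monic := monic_pr _ _
  have hlead : F.coeff n = 1 := by
    have := hmon.coeff_natDegree
    rwa [hdeg] at this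
  have hgα : ∀ g : G, ρ g α ≠ 0 := fun g h => h0 (by simpa using h)
  -- the coefficients are in `k(t)`
  have hinv : ∀ h : G, F.map ((ρ h : L ≃ₐ[k] L) : L →+* L) = F := by
    intro h
    rw [hF, Polynomial.map_prod]
    refine Fintype.prod_equiv (Equiv.mulLeft h) _ _ fun g => ?_
    rw [Polynomial.map_sub, map_X, map_C, Equiv.coe_mulLeft, map_mul, AlgEquiv.mul_apply]
    rfl
  have hco : ∀ i, F.coeff i ∈ IntermediateField.adjoin k {t} := by
    intro i
    rw [← hP.cov.fixed]
    intro g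
    have := congrArg (fun f => f.coeff i) (hinv g)
    simp only [coeff_map] at this
    exact this
  have hroot : F.eval α = 0 := by
    rw [hF, eval_prod]
    refine prod_eq_zero (mem_univ (1 : G)) ?_
    simp
  -- the derivative
  have hder : F.derivative.eval α = ∏ g ∈ univ.erase (1 : G), (α - ρ g α) := by
    rw [hF, ← mul_prod_erase univ _ (mem_univ (1 : G))]
    rw [derivative_mul]
    simp [eval_prod]
  have hder0 : F.derivative.eval α ≠ 0 := by
    rw [hder, prod_ne_zero_iff]
    intro g hg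
    exact (hsub g (ne_of_mem_erase hg)).1
  have hderord : P.ord (F.derivative.eval α) =
      (n : ℤ) - 1 + ∑ g ∈ univ.erase (1 : G), P.b (ρ g) := by
    rw [hder, ord_prod P _ _ fun g hg => (hsub g (ne_of_mem_erase hg)).1]
    rw [Finset.sum_congr rfl fun g hg => (hsub g (ne_of_mem_erase hg)).2]
    rw [Finset.sum_add_distrib, Finset.sum_const, card_erase_of_mem (mem_univ _), hcard]
    rw [nsmul_eq_mul, mul_one, Nat.cast_sub hn1]
    push_cast
    ring
  -- constant coefficient
  have hc0 : F.coeff 0 = ∏ g : G, (-(ρ g α)) := by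
    rw [coeff_zero_eq_eval_zero, hF, eval_prod]
    refine prod_congr rfl fun g _ => ?_
    simp
  have hc0ne : F.coeff 0 ≠ 0 := by
    rw [hc0, prod_ne_zero_iff]
    exact fun g _ => neg_ne_zero.2 (hgα g)
  have hc0ord : P.ord (F.coeff 0) = n := by
    rw [hc0, ord_prod P _ _ fun g _ => neg_ne_zero.2 (hgα g)]
    rw [Finset.sum_congr rfl fun g _ => show P.ord (-(ρ g α)) = 1 by
      rw [P.ord_neg, hfix g α h0, hα]]
    rw [Finset.sum_const, hcard, nsmul_eq_mul, mul_one]
  have hcge : ∀ i < n, P.Ge (F.coeff i) 1 := by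
    intro i hi
    refine coeff_ge P univ (fun g => ρ g α) (fun g _ => Or.inr ?_) i (by rw [hcard]; exact hi)
    rw [hfix g α h0, hα]
  have hdkk := fun x hx hx0 => h2 p n k L P t Δ hP.pr hP.ch hn1 hordt hD x hx hx0
  -- the sum
  have hzero : Δ (F.coeff 0) ≠ 0 ∧ P.ord (Δ (F.coeff 0)) = n := by
    obtain ⟨m, hm1, -, hm3⟩ := hdkk _ (hco 0) hc0ne
    have hm : m = 1 := by
      rw [hc0ord] at hm1
      have hn0 : (n : ℤ) ≠ 0 := by exact_mod_cast (by omega : n ≠ 0)
      have : (n : ℤ) * m = n * 1 := by rw [mul_one]; exact hm1.symm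
      exact mul_left_cancel₀ hn0 this
    have hp1 : ¬ (p : ℤ) ∣ m := by
      rw [hm]
      intro h
      have := hP.pr.one_lt
      have h' := Int.le_of_dvd one_pos h
      omega
    obtain ⟨ha, hb⟩ := hm3 hp1
    exact ⟨ha, by rw [hb, hc0ord]⟩
  have hterm : ∀ i, 1 ≤ i → i ≤ n → P.Ge (α ^ i * Δ (F.coeff i)) (n + 1) := by
    intro i hi1 hin
    rcases hin.lt_or_eq with hlt | heq
    · by_cases hc : F.coeff i = 0
      · left
        rw [hc, dd_zero hD, mul_zero]
      · obtain ⟨m, hm1, hm2, -⟩ := hdkk _ (hco i) hc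
        have h3 := (hcge i hlt).resolve_left hc
        have hm : 1 ≤ m := by
          by_contra hm
          have hm' : m ≤ 0 := by omega
          have : (n : ℤ) * m ≤ 0 := mul_nonpos_of_nonneg_of_nonpos (by positivity) hm'
          omega
        have h4 : (n : ℤ) ≤ P.ord (F.coeff i) := by
          rw [hm1]
          have : (0 : ℤ) ≤ n := by positivity
          nlinarith
        have h5 : P.Ge (α ^ i) i := by
          right
          rw [P.ord_pow h0, hα, mul_one]
        refine P.ge_mono (P.ge_mul h5 hm2) ?_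
        have : (1 : ℤ) ≤ i := by exact_mod_cast hi1
        omega
    · left
      rw [heq, hlead, dd_one hD, mul_zero]
  have hsum := dd_eval hD F α
  rw [hroot, dd_zero hD, hdeg, Finset.sum_range_succ', pow_zero, one_mul] at hsum
  have hrest : P.Ge (∑ i ∈ range n, α ^ (i + 1) * Δ (F.coeff (i + 1))) (n + 1) := by
    refine P.ge_sum _ _ _ fun i hi => ?_
    have := hterm (i + 1) (by omega) (by have := mem_range.1 hi; omega)
    exact this
  have h6 := P.ord_add_of_lt hzero.1 (by rw [hzero.2]; exact hrest)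
  rw [hzero.2] at h6
  have h7 : F.derivative.eval α * Δ α =
      -(Δ (F.coeff 0) + ∑ i ∈ range n, α ^ (i + 1) * Δ (F.coeff (i + 1))) := by
    linear_combination -hsum
  have h8 : Δ α ≠ 0 := by
    intro h
    rw [h, mul_zero] at h7
    exact h6.1 (neg_eq_zero.1 h7.symm)
  refine ⟨h8, ?_⟩
  have h9 := congrArg P.ord h7
  rw [P.ord_mul _ _ hder0 h8, P.ord_neg, h6.2, hderord] at h9
  omega

/-- the sum off `M` by cosets -/
theorem so_eq {k L G : Type} [Field k] [Field L] [Algebra k L] [Group G] [Fintype G]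
    (P : Place k L) (ρ : G →* (L ≃ₐ[k] L)) (M : Subgroup G) [M.Normal] [Fintype (G ⧸ M)]
    [DecidableEq (G ⧸ M)] (β : G ⧸ M → ℤ)
    (h : ∀ g : G, g ∉ M → sm (fun g => P.b (ρ g)) {y | g⁻¹ * y ∈ M} = β g) :
    So P ρ M = ∑ s ∈ univ.erase (1 : G ⧸ M), β s := by
  classical
  unfold So
  have e1 : sm (fun g => P.b (ρ g)) {g | g ∉ M} =
      ∑ s : G ⧸ M, ∑ g ∈ univ.filter (fun g : G => (g : G ⧸ M) = s),
        (if g ∉ M then P.b (ρ g) else 0) := by
    rw [Finset.sum_fiberwise]
    unfold sm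
    rw [← Finset.sum_filter]
    refine Finset.sum_congr ?_ fun _ _ => rfl
    ext g
    simp
  rw [e1, ← Finset.add_sum_erase univ _ (mem_univ (1 : G ⧸ M))]
  have e2 : (∑ g ∈ univ.filter (fun g : G => (g : G ⧸ M) = 1),
      (if g ∉ M then P.b (ρ g) else 0)) = 0 := by
    refine Finset.sum_eq_zero fun g hg => ?_
    have : g ∈ M := (QuotientGroup.eq_one_iff g).1 (mem_filter.1 hg).2
    rw [if_neg (not_not.2 this)]
  rw [e2, zero_add]
  refine Finset.sum_congr rfl fun s hs => ?_
  obtain ⟨g0, rfl⟩ := QuotientGroup.mk_surjective s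
  have hg0 : g0 ∉ M := fun hm => (ne_of_mem_erase hs) ((QuotientGroup.eq_one_iff g0).2 hm)
  rw [← h g0 hg0]
  unfold sm
  rw [← Finset.sum_filter, Finset.filter_filter]
  refine Finset.sum_congr ?_ fun _ _ => rfl
  ext g
  simp only [mem_filter, mem_univ, true_and, Set.mem_ofPred_eq]
  rw [eq_comm, QuotientGroup.eq]
  constructor
  · rintro ⟨h3, -⟩
    exact h3
  · intro h3
    refine ⟨h3, fun h4 => hg0 ?_⟩
    have := M.mul_mem h4 (M.inv_mem h3)
    rwa [mul_inv_rev, inv_inv, mul_inv_cancel_left] at this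

end DVA

open DVA Finset in
theorem dva_thm (h1 : S_BAS) (h2 : S_DKK) (h3 : S_QSM) (h5 : S_LON) : S_DVA := by
  classical
  intro p k L G _ _ _ _ _ _ ρ t P Δ M hP hD hc hM _
  have := hM
  obtain ⟨E, ρ', t', Q, hE, ht', hρ', hQ, hord, hsm⟩ := h3 p k L G ρ t P M hP
  let _ : Fintype (G ⧸ M) := Fintype.ofFinite _
  -- the restriction of the derivation
  have hΔE : ∀ v : E, Δ (v : L) ∈ E := by
    intro v
    rw [hE]
    intro m hm
    rw [← hc, (hE v).1 v.2 m hm]
  let Δ' : E → E := fun v => ⟨Δ v, hΔE v⟩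
  have hD' : DD k t' Δ' := by
    refine ⟨fun x y => ?_, fun x y => ?_, fun c => ?_, ?_⟩
    · apply Subtype.ext
      exact hD.add x y
    · apply Subtype.ext
      exact hD.mul x y
    · apply Subtype.ext
      exact hD.con c
    · apply Subtype.ext
      show Δ (t' : L) = t'
      rw [ht']
      exact hD.self
  obtain ⟨hne, ho⟩ := core h1 h2 h5 ρ' t' Q Δ' hQ hD' Q.pi Q.pi_ne Q.ord_pi
  have hM0 : (Q.pi : L) ≠ 0 := fun h => Q.pi_ne (Subtype.ext h)
  have hne' : Δ (Q.pi : L) ≠ 0 := fun h => hne (Subtype.ext h)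
  refine ⟨(Q.pi : L), hM0, fun m hm => (hE _).1 Q.pi.2 m hm, ?_, hne', ?_⟩
  · rw [← hord Q.pi Q.pi_ne, Q.ord_pi, mul_one]
  · have e1 := hord (Δ' Q.pi) hne
    have e2 : ((Δ' Q.pi : E) : L) = Δ (Q.pi : L) := rfl
    rw [← e2, ← e1, ho, so_eq P ρ M (fun s => Nat.card M * Q.b (ρ' s)) hsm, mul_sub, mul_one,
      Finset.mul_sum]

end Pool.CND
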