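import Pool.Agent.H37.CNK.Stmts
import Pool.Agent.H52.CND.VEC
import Pool.Agent.H1.CNK.DVA

/-!
# Row DVV of the board `cnk`: the derivation on the fixed field of `M`
-/

set_option autoImplicit false

namespace Pool.CND

namespace DVV

open Finset

theorem so_ite {k L G : Type} [Field k] [Field L] [Algebra k L] [Group G] [Fintype G]
    [DecidableEq G] (P : Place k L) (ρ : G →* (L ≃ₐ[k] L)) (M : Subgroup G)
    [DecidablePred (fun g => g ∈ M)] :
    So P ρ M = ∑ g, if g ∉ M then P.b (ρ g) else 0 := by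
  unfold So sm
  rw [← Finset.sum_filter]
  refine Finset.sum_congr ?_ fun _ _ => rfl
  ext g
  simp

theorem so_top {k L G : Type} [Field k] [Field L] [Algebra k L] [Group G] [Fintype G]
    (P : Place k L) (ρ : G →* (L ≃ₐ[k] L)) : So P ρ ⊤ = 0 := by
  classical
  rw [so_ite]
  refine Finset.sum_eq_zero fun g _ => ?_
  rw [if_neg (not_not.2 (Subgroup.mem_top g))]

theorem so_pos {k L G : Type} [Field k] [Field L] [Algebra k L] [Group G] [Fintype G]
    (P : Place k L) (ρ : G →* (L ≃ₐ[k] L)) (M : Subgroup G) (hM : M ≠ ⊤)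
    (hum : UM (fun g => P.b (ρ g)) (⊤ : Subgroup G)) : 0 < So P ρ M := by
  classical
  have h0 : ∀ g, g ∉ M → 1 ≤ P.b (ρ g) := fun g h1 =>
    hum.pos g (Subgroup.mem_top g) (fun h => h1 (h ▸ M.one_mem))
  obtain ⟨g0, hg0⟩ : ∃ g, g ∉ M := by
    by_contra h
    push Not at h
    exact hM ((Subgroup.eq_top_iff' M).2 h)
  rw [so_ite]
  refine Finset.sum_pos' (fun g _ => ?_) ⟨g0, mem_univ g0, ?_⟩
  · by_cases h : g ∈ M
    · rw [if_neg (not_not.2 h)]
    · rw [if_pos h]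
      exact zero_le_one.trans (h0 g h)
  · rw [if_pos hg0]
    exact one_pos.trans_le (h0 g0 hg0)

end DVV

open DVV DVA Finset in
theorem dvv_thm (h1 : S_BAS) (h2 : S_DKK) (h3 : S_DVA) (h4 : S_DVB) : S_DVV := by
  classical
  intro p k L G _ _ _ _ _ _ ρ t P Δ M hP hD hc hM x hx hxM
  obtain ⟨-, -, hordt, hum, -⟩ := h1 p k L G ρ t P hP
  have hch := hP.ch
  have hn1 : 1 ≤ Nat.card G := Nat.card_pos
  have hdkk := fun x hx hx0 => h2 p (Nat.card G) k L P t Δ hP.pr hP.ch hn1 hordt hD x hx hx0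
  by_cases hMt : M = ⊤
  · subst hMt
    have hxt : x ∈ IntermediateField.adjoin k {t} :=
      (hP.cov.fixed x).1 fun g => hxM g (Subgroup.mem_top g)
    obtain ⟨m, hm1, hm2, hm3⟩ := hdkk x hxt hx
    refine ⟨m, ?_, ?_, ?_⟩
    · rw [Subgroup.card_top]
      exact hm1
    · rw [so_top, sub_zero]
      exact hm2
    · rw [so_top, sub_zero]
      exact hm3
  obtain ⟨α, hα0, hαM, hαo, hΔα, hΔαo⟩ := h3 p k L G ρ t P Δ M hP hD hc hM hMt
  obtain ⟨r, hr, hxs⟩ := h4 p k L G ρ t P M α hP hM hα0 hαM hαo x hxM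
  set S := So P ρ M with hSdef
  have hS : 0 < S := so_pos P ρ M hMt hum
  have hcard : (Nat.card G : ℤ) = Nat.card M * M.index := by
    exact_mod_cast M.card_mul_index.symm
  have hMpos : (0 : ℤ) < Nat.card M := by
    have : 0 < Nat.card M := Nat.card_pos
    exact_mod_cast this
  have hpi : (p : ℤ) ∣ M.index := by
    obtain ⟨n, hn⟩ := hP.cd
    have h5 : M.index ∣ p ^ n := by
      rw [← hn]
      exact M.index_dvd_card
    obtain ⟨s, -, hs⟩ := (Nat.dvd_prime_pow hP.pr).1 h5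
    have hs0 : s ≠ 0 := by
      rintro rfl
      rw [pow_zero, Subgroup.index_eq_one] at hs
      exact hMt hs
    rw [hs]
    exact_mod_cast dvd_pow_self p hs0
  rw [Finset.sum_range] at hxs
  have hex : ∃ i : Fin M.index, r i ≠ 0 := by
    by_contra h
    push Not at h
    apply hx
    rw [hxs]
    exact Finset.sum_eq_zero fun i _ => by rw [h i, zero_mul]
  have hrd : ∀ i : Fin M.index, r i = 0 ∨ (Nat.card G : ℤ) ∣ P.ord (r i) := fun i => by
    by_cases h : r i = 0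
    · exact Or.inl h
    · obtain ⟨m, hm, -⟩ := hdkk _ (hr i) h
      exact Or.inr ⟨m, hm⟩
  have hres : ∀ i j : Fin M.index, i ≠ j →
      ¬ (Nat.card G : ℤ) ∣ P.ord (α ^ (i : ℕ)) - P.ord (α ^ (j : ℕ)) := by
    intro i j hij hd
    rw [P.ord_pow hα0, P.ord_pow hα0, hαo, hcard,
      show ((i : ℕ) : ℤ) * (Nat.card M : ℤ) - ((j : ℕ) : ℤ) * (Nat.card M : ℤ) =
        Nat.card M * (((i : ℕ) : ℤ) - ((j : ℕ) : ℤ)) by ring] at hd
    have hd2 := (mul_dvd_mul_iff_left hMpos.ne').1 hd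
    apply hij
    apply Fin.ext
    have hi := i.2
    have hj := j.2
    have h5 := Int.eq_zero_of_abs_lt_dvd hd2 (by rw [abs_lt]; constructor <;> omega)
    omega
  obtain ⟨-, i0, hi0, ho0, hmin⟩ := vec_thm k L (Fin M.index) P (Nat.card G)
    (fun i => α ^ (i : ℕ)) (fun i => r i) hn1 (fun i => pow_ne_zero _ hα0) hres hrd hex
  rw [← hxs] at ho0
  have hoo : ∀ i : Fin M.index, r i ≠ 0 →
      P.ord (r i * α ^ (i : ℕ)) = P.ord (r i) + (i : ℕ) * Nat.card M := by
    intro i hi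
    rw [P.ord_mul _ _ hi (pow_ne_zero _ hα0), P.ord_pow hα0, hαo]
  have hlt : ∀ i : Fin M.index, i ≠ i0 → r i ≠ 0 →
      P.ord x + 1 ≤ P.ord (r i * α ^ (i : ℕ)) := by
    intro i hi hri
    have h5 := hmin i hri
    rw [← ho0] at h5
    refine lt_of_le_of_ne h5 fun h6 => ?_
    rw [ho0] at h6
    apply hres i i0 hi
    have e1 := P.ord_mul _ _ hri (pow_ne_zero (i : ℕ) hα0)
    have e2 := P.ord_mul _ _ hi0 (pow_ne_zero (i0 : ℕ) hα0)
    have h7 := (hrd i).resolve_left hri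
    have h8 := (hrd i0).resolve_left hi0
    have e3 : P.ord (α ^ (i : ℕ)) - P.ord (α ^ (i0 : ℕ)) = P.ord (r i0) - P.ord (r i) := by
      linarith
    rw [e3]
    exact dvd_sub h8 h7
  -- the terms
  have hU : ∀ i : Fin M.index, P.Ge (α ^ (i : ℕ) * Δ (r i)) (P.ord x - S + 1) := by
    intro i
    by_cases hri : r i = 0
    · left
      rw [hri, dd_zero hD, mul_zero]
    · obtain ⟨-, -, h6, -⟩ := hdkk _ (hr i) hri
      have h5 : P.Ge (α ^ (i : ℕ)) ((i : ℕ) * Nat.card M) := by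
        right
        rw [P.ord_pow hα0, hαo]
      refine P.ge_mono (P.ge_mul h5 h6) ?_
      have h7 := hmin i hri
      rw [← ho0] at h7
      have h8 := hoo i hri
      rw [h8] at h7
      linarith
  have hT0 : ∀ i : Fin M.index, r i ≠ 0 → (((i : ℕ) : L) = 0 → r i * Δ (α ^ (i : ℕ)) = 0) ∧
      (((i : ℕ) : L) ≠ 0 → r i * Δ (α ^ (i : ℕ)) ≠ 0 ∧
        P.ord (r i * Δ (α ^ (i : ℕ))) = P.ord (r i * α ^ (i : ℕ)) - S) := by
    intro i hri
    rw [dd_pow hD]
    refine ⟨fun h => by rw [h]; ring, fun h => ?_⟩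
    have hi1 : 1 ≤ (i : ℕ) := by
      rcases Nat.eq_zero_or_pos (i : ℕ) with h5 | h5
      · exact absurd (by rw [h5]; simp) h
      · exact h5
    have hk : ((i : ℕ) : k) ≠ 0 := by
      intro h5
      apply h
      have := congrArg (algebraMap k L) h5
      rwa [map_natCast, map_zero] at this
    have ho : P.ord ((i : ℕ) : L) = 0 := by
      have := P.ord_const _ hk
      rwa [map_natCast] at this
    have hpw : α ^ ((i : ℕ) - 1) ≠ 0 := pow_ne_zero _ hα0
    refine ⟨mul_ne_zero hri (mul_ne_zero (mul_ne_zero h hpw) hΔα), ?_⟩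
    rw [P.ord_mul _ _ hri (mul_ne_zero (mul_ne_zero h hpw) hΔα),
      P.ord_mul _ _ (mul_ne_zero h hpw) hΔα, P.ord_mul _ _ h hpw, ho, P.ord_pow hα0, hαo, hΔαo,
      hoo i hri, Nat.cast_sub hi1]
    push_cast
    ring
  have hT : ∀ i : Fin M.index, i ≠ i0 → P.Ge (r i * Δ (α ^ (i : ℕ))) (P.ord x - S + 1) := by
    intro i hi
    by_cases hri : r i = 0
    · left
      rw [hri, zero_mul]
    · obtain ⟨h5, h6⟩ := hT0 i hri
      by_cases h7 : ((i : ℕ) : L) = 0
      · exact Or.inl (h5 h7)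
      · right
        rw [(h6 h7).2]
        have := hlt i hi hri
        linarith
  have hsum : Δ x = r i0 * Δ (α ^ (i0 : ℕ)) + (∑ i ∈ univ.erase i0, r i * Δ (α ^ (i : ℕ)) +
      ∑ i : Fin M.index, α ^ (i : ℕ) * Δ (r i)) := by
    rw [← add_assoc, add_sum_erase univ (fun i : Fin M.index => r i * Δ (α ^ (i : ℕ)))
      (mem_univ i0), ← sum_add_distrib, hxs, dd_sum hD]
    exact Finset.sum_congr rfl fun i _ => hD.mul _ _
  have hrest : P.Ge (∑ i ∈ univ.erase i0, r i * Δ (α ^ (i : ℕ)) +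
      ∑ i : Fin M.index, α ^ (i : ℕ) * Δ (r i)) (P.ord x - S + 1) :=
    P.ge_add (P.ge_sum _ _ _ fun i hi => hT i (ne_of_mem_erase hi))
      (P.ge_sum _ _ _ fun i _ => hU i)
  obtain ⟨m0, hm0⟩ := (hrd i0).resolve_left hi0
  have hx0 : P.ord x = Nat.card M * (M.index * m0 + (i0 : ℕ)) := by
    rw [ho0, hoo i0 hi0, hm0, hcard]
    ring
  refine ⟨M.index * m0 + (i0 : ℕ), hx0, ?_, ?_⟩
  · rw [hsum]
    refine P.ge_add ?_ (P.ge_mono hrest (by omega))
    obtain ⟨h5, h6⟩ := hT0 i0 hi0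
    by_cases h7 : ((i0 : ℕ) : L) = 0
    · exact Or.inl (h5 h7)
    · right
      rw [(h6 h7).2, ho0]
  · intro hpm
    have h7 : ((i0 : ℕ) : L) ≠ 0 := by
      intro h8
      apply hpm
      have hk : ((i0 : ℕ) : k) = 0 := by
        apply (algebraMap k L).injective
        rw [map_natCast, map_zero, h8]
      have h9 : p ∣ (i0 : ℕ) := (CharP.cast_eq_zero_iff k p _).1 hk
      exact dvd_add (Dvd.dvd.mul_right hpi _) (by exact_mod_cast h9)
    obtain ⟨h8, h9⟩ := (hT0 i0 hi0).2 h7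
    have h10 : P.ord (r i0 * Δ (α ^ (i0 : ℕ))) = P.ord x - S := by rw [h9, ho0]
    have h11 := P.ord_add_of_lt h8 (by rw [h10]; exact hrest)
    rw [hsum]
    exact ⟨h11.1, by rw [h11.2, h10]⟩

end Pool.CND
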